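import Mathlib

set_option autoImplicit false

/-! Class-two groups of exponent dividing nine (order a power of three) attached to bilinear maps. -/

namespace Pool.Agent.H260R2.EdgeOrbit

/-- the field with three elements -/
abbrev K := ZMod 3

/-- The group on `V × Z` with product `(x,a)(y,b) = (x+y, a+b+B x y)`. -/
@[ext] structure BG {V Z : Type} [AddCommGroup V] [Module K V] [AddCommGroup Z] [Module K Z]
    (B : V →ₗ[K] V →ₗ[K] Z) where
  /-- first coordinate -/
  fst : V
  /-- second coordinate -/
  snd : Z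

namespace BG

variable {V Z : Type} [AddCommGroup V] [Module K V] [AddCommGroup Z] [Module K Z]
  (B : V →ₗ[K] V →ₗ[K] Z)

instance : Mul (BG B) := ⟨fun p q => ⟨p.fst + q.fst, p.snd + q.snd + B p.fst q.fst⟩⟩
instance : One (BG B) := ⟨⟨0, 0⟩⟩
instance : Inv (BG B) := ⟨fun p => ⟨-p.fst, -p.snd + B p.fst p.fst⟩⟩

@[simp] theorem mul_fst (p q : BG B) : (p * q).fst = p.fst + q.fst := rfl
@[simp] theorem mul_snd (p q : BG B) : (p * q).snd = p.snd + q.snd + B p.fst q.fst := rfl
@[simp] theorem one_fst : (1 : BG B).fst = 0 := rfl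
@[simp] theorem one_snd : (1 : BG B).snd = 0 := rfl
@[simp] theorem inv_fst (p : BG B) : (p⁻¹).fst = -p.fst := rfl
@[simp] theorem inv_snd (p : BG B) : (p⁻¹).snd = -p.snd + B p.fst p.fst := rfl

instance : Group (BG B) := Group.ofLeftAxioms
  (by
    intro a b c
    ext
    · simp [add_assoc]
    · simp; abel)
  (by intro a; ext <;> simp)
  (by intro a; ext <;> simp)

/-- underlying pairs -/
def toProd : BG B ≃ V × Z where
  toFun p := (p.fst, p.snd)
  invFun p := ⟨p.1, p.2⟩
  left_inv _ := rfl
  right_inv _ := rfl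

instance [Finite V] [Finite Z] : Finite (BG B) := Finite.of_equiv _ (toProd B).symm

/-- the central element attached to `a` -/
def ce (a : Z) : BG B := ⟨0, a⟩

@[simp] theorem ce_fst (a : Z) : (ce B a).fst = 0 := rfl
@[simp] theorem ce_snd (a : Z) : (ce B a).snd = a := rfl

theorem ce_mem_center (a : Z) : ce B a ∈ Subgroup.center (BG B) := by
  rw [Subgroup.mem_center_iff]
  intro g
  ext
  · simp
  · simp [add_comm]

theorem ce_pow (a : Z) (n : ℕ) : (ce B a) ^ n = ce B (n • a) := by
  induction n with
  | zero => ext <;> simp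
  | succ n ih => rw [pow_succ, ih]; ext <;> simp [add_smul]

theorem comm_eq (p q : BG B) : p * q * p⁻¹ * q⁻¹ = ce B (B p.fst q.fst - B q.fst p.fst) := by
  ext
  · simp
  · simp; abel

/-- projection to `V` -/
def proj : BG B →* Multiplicative V where
  toFun p := Multiplicative.ofAdd p.fst
  map_one' := rfl
  map_mul' _ _ := rfl

/-- the image of a subgroup in `V` -/
def img (H : Subgroup (BG B)) : Submodule K V :=
  AddSubgroup.toZModSubmodule 3
    { carrier := {x | ∃ p ∈ H, p.fst = x}
      add_mem' := by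
        rintro _ _ ⟨p, hp, rfl⟩ ⟨q, hq, rfl⟩
        exact ⟨p * q, H.mul_mem hp hq, rfl⟩
      zero_mem' := ⟨1, H.one_mem, rfl⟩
      neg_mem' := by
        rintro _ ⟨p, hp, rfl⟩
        exact ⟨p⁻¹, H.inv_mem hp, rfl⟩ }

theorem mem_img (H : Subgroup (BG B)) (x : V) : x ∈ img B H ↔ ∃ p ∈ H, p.fst = x := Iff.rfl

/-- the intersection of a subgroup with the central copy of `Z` -/
def cen (H : Subgroup (BG B)) : Submodule K Z :=
  AddSubgroup.toZModSubmodule 3
    { carrier := {a | ce B a ∈ H}
      add_mem' := by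
        intro a b ha hb
        have h : ce B (a + b) = ce B a * ce B b := by ext <;> simp
        change ce B (a + b) ∈ H
        rw [h]
        exact H.mul_mem ha hb
      zero_mem' := by
        have h : ce B (0 : Z) = 1 := rfl
        change ce B 0 ∈ H
        rw [h]
        exact H.one_mem
      neg_mem' := by
        intro a ha
        have h : ce B (-a) = (ce B a)⁻¹ := by ext <;> simp
        change ce B (-a) ∈ H
        rw [h]
        exact H.inv_mem ha }

theorem mem_cen (H : Subgroup (BG B)) (a : Z) : a ∈ cen B H ↔ ce B a ∈ H := Iff.rfl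

theorem comm_mem_cen (H : Subgroup (BG B)) {x y : V} (hx : x ∈ img B H) (hy : y ∈ img B H) :
    B x y - B y x ∈ cen B H := by
  obtain ⟨p, hp, rfl⟩ := hx
  obtain ⟨q, hq, rfl⟩ := hy
  rw [mem_cen, ← comm_eq]
  exact H.mul_mem (H.mul_mem (H.mul_mem hp hq) (H.inv_mem hp)) (H.inv_mem hq)

theorem sq_eq_one {p : BG B} (h : p ^ 2 = 1) : p = 1 := by
  have h3 : ∀ (M : Type) [AddCommGroup M] [Module K M] (x : M), x + x = 0 → x = 0 := by
    intro M _ _ x hx
    have h1 : (2 : K) • x = 0 := by rw [two_smul]; exact hx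
    have h2 : (2 : K) • ((2 : K) • x) = x := by
      rw [smul_smul]
      have : (2 : K) * 2 = 1 := by decide
      rw [this, one_smul]
    rw [← h2, h1, smul_zero]
  rw [pow_two] at h
  have hf : p.fst + p.fst = 0 := by
    have := congrArg BG.fst h
    simpa using this
  have hf' := h3 V _ hf
  have hs : p.snd + p.snd = 0 := by
    have := congrArg BG.snd h
    simpa [hf'] using this
  have hs' := h3 Z _ hs
  ext
  · simpa using hf'
  · simpa using hs'

end BG

end Pool.Agent.H260R2.EdgeOrbit
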