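import Mathlib
import Pool.Agent.H260R2.EdgeOrbit.Grp

set_option autoImplicit false

/-! Counting: some bilinear map has no large subspace with small commutator span. -/

namespace Pool.Agent.H260R2.EdgeOrbit

open Module

variable {V Z : Type} [AddCommGroup V] [Module K V] [AddCommGroup Z] [Module K Z]

/-- `K^m` -/
abbrev Km (m : ℕ) := Fin m → K

/-- the alternating part of `B` on the two halves of the domain of `u`, followed by `l` -/
def psi {m s : ℕ} (u : (Km m × Km m) →ₗ[K] V) (l : Z →ₗ[K] Km s) :
    (V →ₗ[K] V →ₗ[K] Z) →ₗ[K] (Km m →ₗ[K] Km m →ₗ[K] Km s) where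
  toFun B := LinearMap.mk₂ K
    (fun x y => l (B (u (x, 0)) (u (0, y)) - B (u (0, y)) (u (x, 0))))
    (by
      intro x x' y
      have h : ((x + x', 0) : Km m × Km m) = (x, 0) + (x', 0) := by simp
      simp only [h, map_add, LinearMap.add_apply, map_sub]
      abel)
    (by
      intro c x y
      have h : ((c • x, 0) : Km m × Km m) = c • (x, 0) := by simp
      rw [h, map_smul, map_smul, LinearMap.smul_apply, map_smul, ← smul_sub, map_smul])
    (by
      intro x y y'
      have h : ((0, y + y') : Km m × Km m) = (0, y) + (0, y') := by simp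
      simp only [h, map_add, LinearMap.add_apply, map_sub]
      abel)
    (by
      intro c x y
      have h : ((0, c • y) : Km m × Km m) = c • (0, y) := by simp
      rw [h, map_smul, map_smul, map_smul, LinearMap.smul_apply, ← smul_sub, map_smul])
  map_add' B B' := by
    refine LinearMap.ext fun x => LinearMap.ext fun y => ?_
    simp only [LinearMap.mk₂_apply, LinearMap.add_apply, map_add, map_sub]
    abel
  map_smul' c B := by
    refine LinearMap.ext fun x => LinearMap.ext fun y => ?_
    simp only [LinearMap.mk₂_apply, LinearMap.smul_apply, RingHom.id_apply,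
      ← smul_sub, map_smul]

theorem psi_apply {m s : ℕ} (u : (Km m × Km m) →ₗ[K] V) (l : Z →ₗ[K] Km s)
    (B : V →ₗ[K] V →ₗ[K] Z) (x y : Km m) :
    psi u l B x y = l (B (u (x, 0)) (u (0, y)) - B (u (0, y)) (u (x, 0))) := rfl

theorem psi_surj {m s : ℕ} (u : (Km m × Km m) →ₗ[K] V) (l : Z →ₗ[K] Km s)
    (hu : Function.Injective u) (hl : Function.Surjective l) : Function.Surjective (psi u l) := by
  intro C
  obtain ⟨p, hp⟩ := LinearMap.exists_leftInverse_of_injective u (LinearMap.ker_eq_bot.2 hu)
  obtain ⟨q, hq⟩ := LinearMap.exists_rightInverse_of_surjective l (LinearMap.range_eq_top.2 hl)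
  have hp' : ∀ x, p (u x) = x := fun x => by
    have := LinearMap.congr_fun hp x
    simpa using this
  have hq' : ∀ x, l (q x) = x := fun x => by
    have := LinearMap.congr_fun hq x
    simpa using this
  refine ⟨LinearMap.mk₂ K (fun v w => q (C (p v).1 (p w).2)) ?_ ?_ ?_ ?_, ?_⟩
  · intro a b c; simp
  · intro a b c; simp
  · intro a b c; simp
  · intro a b c; simp
  · refine LinearMap.ext fun x => LinearMap.ext fun y => ?_
    rw [psi_apply]
    simp [LinearMap.mk₂_apply, hp', hq']

theorem card_sub {M : Type} [AddCommGroup M] [Module K M] [Finite M] (S : Submodule K M) :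
    Nat.card S = 3 ^ finrank K S := by
  have h6 := Module.natCard_eq_pow_finrank (K := K) (V := S)
  simpa using h6

/-- existence of the random-like bilinear map -/
theorem exists_bilin (d r m s : ℕ) (h : 2 * m * d + r * s < s * (m * m)) :
    ∃ B : Km d →ₗ[K] Km d →ₗ[K] Km r, ∀ (U : Submodule K (Km d)) (W : Submodule K (Km r)),
      2 * m ≤ finrank K U → (∀ x ∈ U, ∀ y ∈ U, B x y - B y x ∈ W) →
        finrank K (Km r ⧸ W) < s := by
  classical
  by_contra hcon
  push Not at hcon
  -- the index set of tests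
  let T := ((Km m × Km m) →ₗ[K] Km d) × (Km r →ₗ[K] Km s)
  let E := Km d →ₗ[K] Km d →ₗ[K] Km r
  let E' := Km m →ₗ[K] Km m →ₗ[K] Km s
  have : Finite E := Module.finite_of_finite K
  have : Finite T := Module.finite_of_finite K
  have key : ∀ B : E, ∃ t : T, Function.Injective t.1 ∧ Function.Surjective t.2 ∧
      psi t.1 t.2 B = 0 := by
    intro B
    obtain ⟨U, W, hU, hUW, hW⟩ := hcon B
    have h1 : finrank K (Km m × Km m) ≤ finrank K U := by
      simpa [Module.finrank_prod, two_mul] using hU
    obtain ⟨f, hf⟩ := finrank_le_iff_exists_linearMap.1 h1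
    have h2 : finrank K (Km s) ≤ finrank K (Km r ⧸ W) := by simpa using hW
    obtain ⟨g, hg⟩ := finrank_le_iff_exists_linearMap.1 h2
    obtain ⟨g', hg'⟩ := LinearMap.exists_leftInverse_of_injective g (LinearMap.ker_eq_bot.2 hg)
    refine ⟨⟨U.subtype ∘ₗ f, g' ∘ₗ W.mkQ⟩, ?_, ?_, ?_⟩
    · exact U.injective_subtype.comp hf
    · have h3 : Function.Surjective g' := fun x => ⟨g x, by
        have := LinearMap.congr_fun hg' x
        simpa using this⟩
      exact h3.comp W.mkQ_surjective
    · refine LinearMap.ext fun x => LinearMap.ext fun y => ?_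
      rw [psi_apply]
      have h4 : W.mkQ (B (f (x, 0)) (f (0, y)) - B (f (0, y)) (f (x, 0))) = 0 := by
        rw [Submodule.mkQ_apply, Submodule.Quotient.mk_eq_zero]
        exact hUW _ (f (x, 0)).2 _ (f (0, y)).2
      change g' (W.mkQ (B (f (x, 0)) (f (0, y)) - B (f (0, y)) (f (x, 0)))) = 0
      rw [h4, map_zero]
  -- size of each kernel
  have hker : ∀ t : T, Function.Injective t.1 → Function.Surjective t.2 →
      finrank K (LinearMap.ker (psi t.1 t.2)) + s * (m * m) = finrank K E := by
    intro t h1 h2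
    have h3 := LinearMap.finrank_range_add_finrank_ker
      (V := Km d →ₗ[K] Km d →ₗ[K] Km r) (V₂ := Km m →ₗ[K] Km m →ₗ[K] Km s) (psi t.1 t.2)
    rw [LinearMap.range_eq_top.2 (psi_surj t.1 t.2 h1 h2), finrank_top] at h3
    have h4 : finrank K (Km m →ₗ[K] Km m →ₗ[K] Km s) = s * (m * m) := by
      rw [finrank_linearMap, finrank_linearMap]
      simp
      ring
    rw [h4] at h3
    rw [← h3, add_comm]
  let T' := {t : T // Function.Injective t.1 ∧ Function.Surjective t.2}
  have hsurj : Function.Surjective
      (fun a : (Σ t : T', LinearMap.ker (psi t.1.1 t.1.2)) => (a.2 : E)) := by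
    intro B
    obtain ⟨t, h1, h2, h3⟩ := key B
    exact ⟨⟨⟨t, h1, h2⟩, ⟨B, h3⟩⟩, rfl⟩
  have hT : Nat.card T = 3 ^ (2 * m * d + r * s) := by
    have h5 : finrank K T = 2 * m * d + r * s := by
      change finrank K (((Km m × Km m) →ₗ[K] Km d) × (Km r →ₗ[K] Km s)) = _
      rw [finrank_prod, finrank_linearMap, finrank_linearMap, finrank_prod]
      simp only [finrank_fin_fun]
      ring
    have h6 := Module.natCard_eq_pow_finrank (K := K) (V := T)
    rw [h5] at h6
    simpa using h6
  have hE : Nat.card E = 3 ^ finrank K E := by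
    have h6 := Module.natCard_eq_pow_finrank (K := K) (V := E)
    simpa using h6
  have hk2 : ∀ t : T', Nat.card (LinearMap.ker (psi t.1.1 t.1.2)) * 3 ^ (s * (m * m)) =
      Nat.card E := by
    intro t
    have h6 := card_sub (M := Km d →ₗ[K] Km d →ₗ[K] Km r) (LinearMap.ker (psi t.1.1 t.1.2))
    have h7 := hker t.1 t.2.1 t.2.2
    rw [h6, hE, ← h7, pow_add]
  have : Finite T' := Subtype.finite
  have : Fintype T' := Fintype.ofFinite _
  have h8 : Nat.card E ≤ Nat.card (Σ t : T', LinearMap.ker (psi t.1.1 t.1.2)) :=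
    Nat.card_le_card_of_surjective _ hsurj
  rw [Nat.card_sigma] at h8
  have h9 : Nat.card E * 3 ^ (s * (m * m)) ≤ Nat.card T * Nat.card E := by
    calc Nat.card E * 3 ^ (s * (m * m))
        ≤ (∑ t : T', Nat.card (LinearMap.ker (psi t.1.1 t.1.2))) * 3 ^ (s * (m * m)) :=
          Nat.mul_le_mul_right _ h8
      _ = ∑ t : T', Nat.card E := by
          rw [Finset.sum_mul]
          exact Finset.sum_congr rfl fun t _ => hk2 t
      _ = Nat.card T' * Nat.card E := by
          rw [Finset.sum_const, Finset.card_univ, ← Nat.card_eq_fintype_card, smul_eq_mul]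
      _ ≤ Nat.card T * Nat.card E := by
          apply Nat.mul_le_mul_right
          exact Nat.card_le_card_of_injective (fun t : T' => t.1) Subtype.val_injective
  have h10 : 0 < Nat.card E := Nat.card_pos
  rw [mul_comm, hT] at h9
  have h11 := Nat.le_of_mul_le_mul_right h9 h10
  have h12 := (Nat.pow_le_pow_iff_right (by norm_num : 1 < 3)).1 h11
  omega

end Pool.Agent.H260R2.EdgeOrbit
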