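import Mathlib
import Pool.Agent.H260R2.EdgeOrbit.Count

set_option autoImplicit false

/-! The group property used in the edge-orbit theorem, and the groups having it. -/

namespace Pool.Agent.H260R2.EdgeOrbit

open Module

/-- The property of `G`: class at most two, no involutions, and for at most `N` subgroups there is
a central element of order three such that the subgroups avoiding it, together with `N + 1`
elements, do not generate. -/
structure Good (G : Type) [Group G] (N : ℕ) : Prop where
  comm : ∀ a b : G, a * b * a⁻¹ * b⁻¹ ∈ Subgroup.center G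
  sq : ∀ g : G, g ^ 2 = 1 → g = 1
  main : ∀ (ι : Type) [Fintype ι], Fintype.card ι ≤ N → ∀ H : ι → Subgroup G,
    ∃ z ∈ Subgroup.center G, z ≠ 1 ∧ z ^ 3 = 1 ∧ ∀ T : ι → G, ∃ D : Subgroup G,
      D ≠ ⊤ ∧ z ∈ D ∧ (∀ i, T i ∈ D) ∧ ∀ i, z ∉ H i → H i ≤ D

theorem Good.transfer {G G' : Type} [Group G] [Group G'] {N : ℕ} (e : G ≃* G') (h : Good G N) :
    Good G' N where
  comm a b := by
    rw [Subgroup.mem_center_iff]
    intro g
    have h1 := Subgroup.mem_center_iff.1 (h.comm (e.symm a) (e.symm b)) (e.symm g)
    have h2 := congrArg e h1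
    simpa using h2
  sq g hg := by
    have h1 : (e.symm g) ^ 2 = 1 := by rw [← map_pow, hg, map_one]
    have h2 := congrArg e (h.sq _ h1)
    simpa using h2
  main ι _ hι H := by
    obtain ⟨z, hz, hz1, hz3, hT⟩ := h.main ι hι (fun i => (H i).comap e.toMonoidHom)
    refine ⟨e z, ?_, ?_, ?_, ?_⟩
    · rw [Subgroup.mem_center_iff]
      intro g
      have h1 := Subgroup.mem_center_iff.1 hz (e.symm g)
      have h2 := congrArg e h1
      simpa using h2
    · intro h1
      exact hz1 (e.injective (by rw [h1, map_one]))
    · rw [← map_pow, hz3, map_one]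
    · intro T
      obtain ⟨D, h1, h2, h3, h4⟩ := hT (fun i => e.symm (T i))
      refine ⟨D.comap e.symm.toMonoidHom, ?_, ?_, ?_, ?_⟩
      · intro h5
        apply h1
        rw [eq_top_iff]
        intro x _
        have h6 : e x ∈ D.comap e.symm.toMonoidHom := by rw [h5]; exact Subgroup.mem_top _
        have h7 : e.symm (e x) ∈ D := h6
        rwa [e.symm_apply_apply] at h7
      · change e.symm (e z) ∈ D
        rw [e.symm_apply_apply]
        exact h2
      · exact h3
      · intro i hi x hx
        refine h4 i (fun h5 => hi h5) ?_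
        change e (e.symm x) ∈ H i
        rw [e.apply_symm_apply]
        exact hx

theorem finrank_iSup_le' {ι : Type} [Fintype ι] {d : ℕ} (S : ι → Submodule K (Km d)) :
    finrank K (⨆ i, S i : Submodule K (Km d)) ≤ ∑ i, finrank K (S i) := by
  classical
  rw [← Finset.sup_univ_eq_iSup]
  induction (Finset.univ : Finset ι) using Finset.induction_on with
  | empty => simp
  | insert a s ha ih =>
    rw [Finset.sup_insert, Finset.sum_insert ha]
    exact (Submodule.finrank_add_le_finrank_add_finrank _ _).trans (by omega)

/-- every `N` admits a finite group with the property -/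
theorem exists_good (N : ℕ) : ∃ (G : Type) (_ : Group G) (_ : Finite G), Good G N := by
  classical
  obtain ⟨s, hs⟩ : ∃ s, s = 4 * N + 6 := ⟨_, rfl⟩
  obtain ⟨m, hm⟩ : ∃ m, m = s * (N + 1) := ⟨_, rfl⟩
  obtain ⟨r, hr⟩ : ∃ r, r = N * s + 1 := ⟨_, rfl⟩
  obtain ⟨d, hd⟩ : ∃ d, d = N * (2 * m) + 1 := ⟨_, rfl⟩
  have hineq : 2 * m * d + r * s < s * (m * m) := by
    have h1 : r * s ≤ m * m := by
      rw [hr, hm]; nlinarith [Nat.zero_le N, Nat.zero_le s, sq_nonneg (s * N)]
    have h2 : 1 ≤ m := by rw [hm, hs]; nlinarith
    have h3 : m ≤ m * m := Nat.le_mul_self m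
    have h4 : s * (m * m) = 4 * N * (m * m) + 6 * (m * m) := by rw [hs]; ring
    have h5 : 2 * m * d = 4 * N * (m * m) + 2 * m := by rw [hd]; ring
    rw [h4, h5]
    nlinarith
  obtain ⟨B, hB⟩ := exists_bilin d r m s hineq
  have hm1 : 1 ≤ m := by rw [hm, hs]; nlinarith
  refine ⟨BG B, inferInstance, inferInstance, ?_, ?_, ?_⟩
  · intro a b
    rw [BG.comm_eq]
    exact BG.ce_mem_center B _
  · intro g hg
    exact BG.sq_eq_one B hg
  · intro ι _ hι H
    -- large subgroups
    let L := {i : ι // 2 * m ≤ finrank K (BG.img B (H i))}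
    let f : Km r →ₗ[K] (∀ i : L, Km r ⧸ BG.cen B (H i.1)) :=
      LinearMap.pi fun i => (BG.cen B (H i.1)).mkQ
    have hf : finrank K (∀ i : L, Km r ⧸ BG.cen B (H i.1)) < finrank K (Km r) := by
      rw [Module.finrank_pi_fintype]
      have h1 : ∀ i : L, finrank K (Km r ⧸ BG.cen B (H i.1)) ≤ s := fun i =>
        (hB (BG.img B (H i.1)) (BG.cen B (H i.1)) i.2
          (fun x hx y hy => BG.comm_mem_cen B (H i.1) hx hy)).le
      calc ∑ i : L, finrank K (Km r ⧸ BG.cen B (H i.1)) ≤ ∑ _i : L, s :=
            Finset.sum_le_sum fun i _ => h1 i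
        _ = Fintype.card L * s := by rw [Finset.sum_const, Finset.card_univ, smul_eq_mul]
        _ ≤ N * s := Nat.mul_le_mul_right _ ((Fintype.card_subtype_le _).trans hι)
        _ < finrank K (Km r) := by rw [finrank_fin_fun, hr]; omega
    obtain ⟨a, ha, ha0⟩ := Submodule.exists_mem_ne_zero_of_ne_bot
      (LinearMap.ker_ne_bot_of_finrank_lt hf)
    have ha' : ∀ i : L, a ∈ BG.cen B (H i.1) := by
      intro i
      have h1 : f a = 0 := ha
      have h2 : (BG.cen B (H i.1)).mkQ a = 0 := congrFun h1 i
      rwa [Submodule.mkQ_apply, Submodule.Quotient.mk_eq_zero] at h2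
    refine ⟨BG.ce B a, BG.ce_mem_center B a, ?_, ?_, ?_⟩
    · intro h1
      exact ha0 (congrArg BG.snd h1)
    · rw [BG.ce_pow]
      have h1 : (3 : ℕ) • a = 0 := by
        ext i
        simp only [Pi.smul_apply, Pi.zero_apply]
        have : ∀ x : K, (3 : ℕ) • x = 0 := by decide
        exact this _
      rw [h1]
      rfl
    · intro T
      let S : ι → Submodule K (Km d) := fun i =>
        (if BG.ce B a ∈ H i then ⊥ else BG.img B (H i)) ⊔ Submodule.span K {(T i).fst}
      have hS : ∀ i, finrank K (S i) ≤ 2 * m := by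
        intro i
        have h1 : finrank K (Submodule.span K {(T i).fst}) ≤ 1 := by
          have := finrank_span_le_card (R := K) ({(T i).fst} : Set (Km d))
          simpa using this
        have h2 : finrank K
            (if BG.ce B a ∈ H i then ⊥ else BG.img B (H i) : Submodule K (Km d)) ≤ 2 * m - 1 := by
          by_cases h3 : BG.ce B a ∈ H i
          · rw [if_pos h3]
            simp
          · rw [if_neg h3]
            by_contra h4
            exact h3 (ha' ⟨i, by omega⟩)
        refine (Submodule.finrank_add_le_finrank_add_finrank _ _).trans ?_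
        omega
      let D' : Subgroup (BG B) :=
        { carrier := {p | p.fst ∈ (⨆ i, S i : Submodule K (Km d))}
          mul_mem' := fun {p q} hp hq => by
            change p.fst + q.fst ∈ (⨆ i, S i : Submodule K (Km d))
            exact Submodule.add_mem _ hp hq
          one_mem' := by
            change (0 : Km d) ∈ (⨆ i, S i : Submodule K (Km d))
            exact Submodule.zero_mem _
          inv_mem' := fun {p} hp => by
            change -p.fst ∈ (⨆ i, S i : Submodule K (Km d))
            exact Submodule.neg_mem _ hp }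
      refine ⟨D', ?_, ?_, ?_, ?_⟩
      · intro htop
        have h2 : (⨆ i, S i : Submodule K (Km d)) = ⊤ := by
          rw [eq_top_iff]
          intro x _
          have h3 : (⟨x, 0⟩ : BG B) ∈ D' := by rw [htop]; exact Subgroup.mem_top _
          exact h3
        have h3 := finrank_iSup_le' S
        rw [h2, finrank_top, finrank_fin_fun] at h3
        have h4 : ∑ i, finrank K (S i) ≤ N * (2 * m) :=
          calc ∑ i, finrank K (S i) ≤ ∑ _i : ι, 2 * m := Finset.sum_le_sum fun i _ => hS i
            _ = Fintype.card ι * (2 * m) := by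
                rw [Finset.sum_const, Finset.card_univ, smul_eq_mul]
            _ ≤ N * (2 * m) := Nat.mul_le_mul_right _ hι
        omega
      · change (0 : Km d) ∈ (⨆ i, S i : Submodule K (Km d))
        exact Submodule.zero_mem _
      · intro i
        have h2 : (T i).fst ∈ S i :=
          Submodule.mem_sup_right (Submodule.mem_span_singleton_self _)
        exact (le_iSup S i) h2
      · intro i hi p hp
        have h2 : p.fst ∈ S i := by
          refine Submodule.mem_sup_left ?_
          rw [if_neg hi]
          exact ⟨p, hp, rfl⟩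
        exact (le_iSup S i) h2

end Pool.Agent.H260R2.EdgeOrbit
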