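import Mathlib
import Pool.Agent.H260R2.EdgeOrbit.Good

set_option autoImplicit false

/-! The graph-theoretic part: a graph whose automorphism group has the property `Good`
has many edge orbits. -/

namespace Pool.Agent.H260R2.EdgeOrbit

variable {V : Type}

theorem mul_app {X : SimpleGraph V} (g h : X ≃g X) (v : V) : (g * h) v = g (h v) := rfl

theorem inv_app {X : SimpleGraph V} (g : X ≃g X) {u v : V} : g⁻¹ u = v ↔ u = g v := by
  constructor
  · rintro rfl
    exact (g.apply_symm_apply u).symm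
  · rintro rfl
    exact g.symm_apply_apply v

theorem inv_self {X : SimpleGraph V} (g : X ≃g X) (v : V) : g⁻¹ (g v) = v :=
  g.symm_apply_apply v

theorem self_inv {X : SimpleGraph V} (g : X ≃g X) (v : V) : g (g⁻¹ v) = v :=
  g.apply_symm_apply v

/-- the stabilizer of a vertex -/
def stab (X : SimpleGraph V) (a : V) : Subgroup (X ≃g X) where
  carrier := {g | g a = a}
  mul_mem' := fun {g h} hg hh => by
    change g (h a) = a
    rw [show h a = a from hh]
    exact hg
  one_mem' := rfl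
  inv_mem' := fun {g} hg => by
    change g⁻¹ a = a
    rw [inv_app]
    exact (show g a = a from hg).symm

theorem mem_stab (X : SimpleGraph V) (a : V) (g : X ≃g X) : g ∈ stab X a ↔ g a = a := Iff.rfl

/-- canonical representatives of the vertex orbits -/
theorem exists_rep (X : SimpleGraph V) : ∃ r : V → V, (∀ v, ∃ g : X ≃g X, g (r v) = v) ∧
    ∀ (v : V) (g : X ≃g X), r (g v) = r v := by
  let s : Setoid V :=
    { r := fun v w => ∃ g : X ≃g X, g v = w
      iseqv := ⟨fun v => ⟨1, rfl⟩, fun {v w} ⟨g, hg⟩ => ⟨g⁻¹, by rw [inv_app]; exact hg.symm⟩,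
        fun {u v w} ⟨g, hg⟩ ⟨h, hh⟩ => ⟨h * g, by rw [mul_app, hg, hh]⟩⟩ }
  refine ⟨fun v => (Quotient.mk s v).out, fun v => ?_, fun v g => ?_⟩
  · exact Quotient.exact (Quotient.out_eq (Quotient.mk s v))
  · have : Quotient.mk s (g v) = Quotient.mk s v :=
      (Quotient.sound (⟨g, rfl⟩ : ∃ g' : X ≃g X, g' v = g v)).symm
    change (Quotient.mk s (g v)).out = (Quotient.mk s v).out
    rw [this]

/-- the relation generating the pieces of the support of `z` -/
def Rel (X : SimpleGraph V) (z : X ≃g X) (u v : V) : Prop :=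
  (z u ≠ u ∧ z v ≠ v ∧ X.Adj u v) ∨ v = z u

theorem rel_moved {X : SimpleGraph V} {z : X ≃g X} {u v : V} (h : Relation.EqvGen (Rel X z) u v) :
    z u ≠ u ↔ z v ≠ v := by
  induction h with
  | rel u v h =>
    rcases h with ⟨h1, h2, _⟩ | rfl
    · exact ⟨fun _ => h2, fun _ => h1⟩
    · constructor
      · intro h1 h2
        exact h1 (z.injective h2)
      · intro h1 h2
        exact h1 (congrArg z h2)
  | refl u => exact Iff.rfl
  | symm u v _ ih => exact ih.symm
  | trans u v w _ _ ih1 ih2 => exact ih1.trans ih2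

theorem comm_app {X : SimpleGraph V} {z : X ≃g X} (hz : z ∈ Subgroup.center (X ≃g X))
    (g : X ≃g X) (v : V) : z (g v) = g (z v) := by
  have h := Subgroup.mem_center_iff.1 hz g
  have h2 := congrArg (fun f : X ≃g X => f v) h
  exact h2.symm

theorem moved_app {X : SimpleGraph V} {z : X ≃g X} (hz : z ∈ Subgroup.center (X ≃g X))
    (g : X ≃g X) (v : V) : z (g v) ≠ g v ↔ z v ≠ v := by
  rw [comm_app hz, not_iff_not]
  exact g.injective.eq_iff

theorem rel_map {X : SimpleGraph V} {z : X ≃g X} (hz : z ∈ Subgroup.center (X ≃g X))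
    (g : X ≃g X) {u v : V} (h : Relation.EqvGen (Rel X z) u v) :
    Relation.EqvGen (Rel X z) (g u) (g v) := by
  induction h with
  | rel u v h =>
    refine Relation.EqvGen.rel _ _ ?_
    rcases h with ⟨h1, h2, h3⟩ | rfl
    · exact Or.inl ⟨(moved_app hz g u).2 h1, (moved_app hz g v).2 h2, g.map_adj_iff.2 h3⟩
    · exact Or.inr (comm_app hz g u).symm
  | refl u => exact Relation.EqvGen.refl _
  | symm u v _ ih => exact ih.symm
  | trans u v w _ _ ih1 ih2 => exact ih1.trans _ _ _ ih2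

/-- acting by `z` on a piece only -/
theorem exists_piece {X : SimpleGraph V} (z : X ≃g X) (v₀ : V) (h0 : z v₀ ≠ v₀) :
    ∃ s : X ≃g X, (∀ v, Relation.EqvGen (Rel X z) v₀ v → s v = z v) ∧
      ∀ v, ¬ Relation.EqvGen (Rel X z) v₀ v → s v = v := by
  classical
  have hO1 : ∀ v, Relation.EqvGen (Rel X z) v₀ v ↔ Relation.EqvGen (Rel X z) v₀ (z v) := by
    intro v
    have h1 : Relation.EqvGen (Rel X z) v (z v) := Relation.EqvGen.rel _ _ (Or.inr rfl)
    exact ⟨fun h => h.trans _ _ _ h1, fun h => h.trans _ _ _ h1.symm⟩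
  have hO1' : ∀ v, Relation.EqvGen (Rel X z) v₀ v ↔ Relation.EqvGen (Rel X z) v₀ (z⁻¹ v) := by
    intro v
    rw [hO1 (z⁻¹ v), self_inv]
  have hO3 : ∀ v w, Relation.EqvGen (Rel X z) v₀ v → X.Adj v w → z w ≠ w →
      Relation.EqvGen (Rel X z) v₀ w := by
    intro v w hv hvw hw
    exact hv.trans _ _ _ (Relation.EqvGen.rel _ _ (Or.inl ⟨(rel_moved hv).1 h0, hw, hvw⟩))
  have key : ∀ u v, Relation.EqvGen (Rel X z) v₀ u → ¬ Relation.EqvGen (Rel X z) v₀ v →
      (X.Adj (z u) v ↔ X.Adj u v) := by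
    intro u v hu hv
    by_cases hzv : z v = v
    · have h1 : X.Adj (z u) (z v) ↔ X.Adj u v := z.map_adj_iff
      rwa [hzv] at h1
    · constructor
      · intro h
        exact absurd (hO3 _ _ ((hO1 u).1 hu) h hzv) hv
      · intro h
        exact absurd (hO3 _ _ hu h hzv) hv
  refine ⟨⟨⟨fun v => if Relation.EqvGen (Rel X z) v₀ v then z v else v,
    fun v => if Relation.EqvGen (Rel X z) v₀ v then z⁻¹ v else v, ?_, ?_⟩, ?_⟩, ?_, ?_⟩
  · intro v
    by_cases h : Relation.EqvGen (Rel X z) v₀ v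
    · simp only [if_pos h, if_pos ((hO1 v).1 h), inv_self]
    · simp only [if_neg h]
  · intro v
    by_cases h : Relation.EqvGen (Rel X z) v₀ v
    · simp only [if_pos h, if_pos ((hO1' v).1 h), self_inv]
    · simp only [if_neg h]
  · intro u v
    simp only [Equiv.coe_fn_mk]
    by_cases hu : Relation.EqvGen (Rel X z) v₀ u
    · by_cases hv : Relation.EqvGen (Rel X z) v₀ v
      · rw [if_pos hu, if_pos hv]
        exact z.map_adj_iff
      · rw [if_pos hu, if_neg hv]
        exact key u v hu hv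
    · by_cases hv : Relation.EqvGen (Rel X z) v₀ v
      · rw [if_neg hu, if_pos hv, X.adj_comm, key v u hv hu, X.adj_comm]
      · rw [if_neg hu, if_neg hv]
  · intro v hv
    exact if_pos hv
  · intro v hv
    exact if_neg hv

/-- an isolated vertex cannot be moved if there are no involutions -/
theorem not_isolated {X : SimpleGraph V} (hsq : ∀ g : X ≃g X, g ^ 2 = 1 → g = 1) (z : X ≃g X)
    (v₀ : V) (h0 : z v₀ ≠ v₀) : ∃ w, X.Adj v₀ w := by
  classical
  by_contra hcon
  push Not at hcon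
  have h1 : ∀ w, ¬ X.Adj (z v₀) w := by
    intro w hw
    apply hcon (z⁻¹ w)
    rw [← z.map_adj_iff, self_inv]
    exact hw
  have h2 : ∀ x, (x = v₀ ∨ x = z v₀) ↔
      (Equiv.swap v₀ (z v₀) x = v₀ ∨ Equiv.swap v₀ (z v₀) x = z v₀) := by
    intro x
    by_cases hx1 : x = v₀
    · subst hx1; simp
    · by_cases hx2 : x = z v₀
      · subst hx2; simp
      · rw [Equiv.swap_apply_of_ne_of_ne hx1 hx2]
  have h3 : ∀ u v, (u = v₀ ∨ u = z v₀) → ¬ X.Adj u v := by
    rintro u v (rfl | rfl)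
    · exact hcon v
    · exact h1 v
  let t : X ≃g X := ⟨Equiv.swap v₀ (z v₀), by
    intro u v
    by_cases hu : u = v₀ ∨ u = z v₀
    · exact ⟨fun h => absurd h (h3 _ _ ((h2 u).1 hu)), fun h => absurd h (h3 _ _ hu)⟩
    · by_cases hv : v = v₀ ∨ v = z v₀
      · exact ⟨fun h => absurd h.symm (h3 _ _ ((h2 v).1 hv)), fun h => absurd h.symm (h3 _ _ hv)⟩
      · push Not at hu hv
        rw [Equiv.swap_apply_of_ne_of_ne hu.1 hu.2, Equiv.swap_apply_of_ne_of_ne hv.1 hv.2]⟩
  have h4 : t ^ 2 = 1 := by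
    rw [pow_two]
    apply RelIso.ext
    intro x
    exact Equiv.swap_apply_self _ _ x
  have h5 := hsq t h4
  have h6 : t v₀ = v₀ := by rw [h5]; rfl
  have h7 : t v₀ = z v₀ := Equiv.swap_apply_left _ _
  exact h0 (h7.symm.trans h6)

end Pool.Agent.H260R2.EdgeOrbit
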