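import Mathlib
import Pool.Agent.H260R2.EdgeOrbit.Graph

set_option autoImplicit false

/-! The edge-orbit theorem. -/

namespace Pool.Agent.H260R2.EdgeOrbit

variable {V : Type}

/-- With representatives of the orbits of ordered adjacent pairs indexed by `ι`, `card ι ≤ N`, the
automorphism group does not have the property `Good` for `N`. -/
theorem core {X : SimpleGraph V} {N : ℕ} (hG : Good (X ≃g X) N) (ι : Type) [Fintype ι]
    (hι : Fintype.card ι ≤ N) (p q : ι → V)
    (hpq : ∀ u v, X.Adj u v → ∃ (i : ι) (g : X ≃g X), g (p i) = u ∧ g (q i) = v) : False := by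
  classical
  obtain ⟨r, hr1, hr2⟩ := exists_rep X
  have hrr : ∀ v, r (r v) = r v := by
    intro v
    obtain ⟨g, hg⟩ := hr1 v
    have := hr2 (r v) g
    rw [hg] at this
    exact this.symm
  -- normalised representatives
  have h1 : ∀ i, ∃ b : V, ∃ g : X ≃g X, g (r (p i)) = p i ∧ g b = q i := by
    intro i
    obtain ⟨g, hg⟩ := hr1 (p i)
    exact ⟨g⁻¹ (q i), g, hg, self_inv g _⟩
  choose b tr htr1 htr2 using h1
  have h2 : ∀ i, ∃ g : X ≃g X, g (r (b i)) = b i := fun i => hr1 (b i)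
  choose T hT using h2
  let A : ι → V := fun i => r (p i)
  have hA : ∀ i, r (A i) = A i := fun i => hrr _
  have hdart : ∀ u v, X.Adj u v → ∃ (i : ι) (g : X ≃g X), g (A i) = u ∧ g (b i) = v := by
    intro u v huv
    obtain ⟨i, g, hg1, hg2⟩ := hpq u v huv
    exact ⟨i, g * tr i, by rw [mul_app, htr1, hg1], by rw [mul_app, htr2, hg2]⟩
  obtain ⟨z, hz, hz1, hz3, hz4⟩ := hG.main ι hι (fun i => stab X (A i))
  obtain ⟨D, hD, hzD, hTD, hSD⟩ := hz4 T
  have hz3' : ∀ v, z (z (z v)) = v := by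
    intro v
    have := congrArg (fun f : X ≃g X => f v) hz3
    simpa [pow_succ] using this
  -- a moved vertex which is a canonical representative
  obtain ⟨v₁, hv₁⟩ : ∃ v, z v ≠ v := by
    by_contra hcon
    push Not at hcon
    exact hz1 (RelIso.ext hcon)
  obtain ⟨g₀, hg₀⟩ := hr1 v₁
  obtain ⟨v₀, hv₀⟩ : ∃ v, v = r v₁ := ⟨_, rfl⟩
  rw [← hv₀] at hg₀
  have hm : z v₀ ≠ v₀ := by
    rw [← moved_app hz g₀, hg₀]
    exact hv₁
  have hrv : r v₀ = v₀ := by rw [hv₀]; exact hrr _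
  -- all translates of `v₀` lie in the same piece
  have hstep2 : ∀ g : X ≃g X, Relation.EqvGen (Rel X z) v₀ (g v₀) := by
    intro g
    by_contra hg
    obtain ⟨s, hs1, hs2⟩ := exists_piece z v₀ hm
    have hc := Subgroup.mem_center_iff.1 (hG.comm g s) g
    have hc' := congrArg (fun f : X ≃g X => f v₀) hc
    simp only [mul_app] at hc'
    have e1 : s⁻¹ (g v₀) = g v₀ := by
      rw [inv_app]
      exact (hs2 _ hg).symm
    have e2 : s⁻¹ v₀ = z⁻¹ v₀ := by
      rw [inv_app, hs1, self_inv]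
      have h3 : Relation.EqvGen (Rel X z) (z⁻¹ v₀) v₀ :=
        Relation.EqvGen.rel _ _ (Or.inr (self_inv z v₀).symm)
      exact h3.symm
    have e3 : ¬ Relation.EqvGen (Rel X z) v₀ (g⁻¹ (z⁻¹ v₀)) := by
      intro h3
      have h4 := rel_map hz g h3
      rw [self_inv] at h4
      have h5 : Relation.EqvGen (Rel X z) (z⁻¹ v₀) v₀ :=
        Relation.EqvGen.rel _ _ (Or.inr (self_inv z v₀).symm)
      exact hg (h4.trans _ _ _ h5).symm
    rw [e1, e2, inv_self, hs1 v₀ (Relation.EqvGen.refl _), hs2 _ e3, self_inv] at hc'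
    have h6 := g.injective hc'
    rw [inv_app] at h6
    have h7 := hz3' v₀
    rw [← h6] at h7
    exact hm h7
  -- every vertex of the piece is a `D`-translate of its representative
  have hP1 : ∀ u v, z u ≠ u → X.Adj u v → (∃ h ∈ D, h (r u) = u) → ∃ h ∈ D, h (r v) = v := by
    rintro u v hu huv ⟨h, hh, hhu⟩
    obtain ⟨i, g, hg1, hg2⟩ := hdart u v huv
    have h3 : r u = A i := by rw [← hg1, hr2, hA]
    have h4 : z (A i) ≠ A i := by
      rw [← moved_app hz g, hg1]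
      exact hu
    have h5 : h⁻¹ * g ∈ stab X (A i) := by
      rw [mem_stab, mul_app, hg1, inv_app, ← h3, hhu]
    have h6 : g ∈ D := by
      have h7 := D.mul_mem hh (hSD i (fun h8 => h4 h8) h5)
      rwa [mul_inv_cancel_left] at h7
    refine ⟨g * T i, D.mul_mem h6 (hTD i), ?_⟩
    have h8 : r v = r (b i) := by rw [← hg2, hr2]
    rw [h8, mul_app, hT, hg2]
  have hP : ∀ u v, Relation.EqvGen (Rel X z) u v →
      ((∃ h ∈ D, h (r u) = u) ↔ ∃ h ∈ D, h (r v) = v) := by
    intro u v huv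
    induction huv with
    | rel u v h =>
      rcases h with ⟨h3, h4, h5⟩ | rfl
      · exact ⟨hP1 u v h3 h5, hP1 v u h4 h5.symm⟩
      · constructor
        · rintro ⟨h, hh, hhu⟩
          exact ⟨z * h, D.mul_mem hzD hh, by rw [hr2, mul_app, hhu]⟩
        · rintro ⟨h, hh, hhu⟩
          refine ⟨z⁻¹ * h, D.mul_mem (D.inv_mem hzD) hh, ?_⟩
          rw [mul_app]
          rw [hr2] at hhu
          rw [hhu, inv_self]
    | refl u => exact Iff.rfl
    | symm u v _ ih => exact ih.symm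
    | trans u v w _ _ ih1 ih2 => exact ih1.trans ih2
  have hP0 : ∃ h ∈ D, h (r v₀) = v₀ := ⟨1, D.one_mem, hrv⟩
  -- the stabilizer of `v₀` lies in `D`
  have hst : stab X v₀ ≤ D := by
    obtain ⟨w, hw⟩ := not_isolated hG.sq z v₀ hm
    obtain ⟨i, g, hg1, hg2⟩ := hdart v₀ w hw
    have h3 : v₀ = A i := by rw [← hA, ← hr2 (A i) g, hg1, hrv]
    rw [h3]
    apply hSD i
    rw [mem_stab, ← h3]
    exact hm
  apply hD
  rw [eq_top_iff]
  intro g _
  obtain ⟨h, hh, hhv⟩ := (hP _ _ (hstep2 g)).1 hP0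
  rw [hr2, hrv] at hhv
  have h3 : h⁻¹ * g ∈ stab X v₀ := by
    rw [mem_stab, mul_app, inv_app, hhv]
  have h4 := D.mul_mem hh (hst h3)
  rwa [mul_inv_cancel_left] at h4

/-- For every `C` there is a finite group all of whose representing graphs have more than `C`
edge orbits. -/
theorem main (C : ℕ) : ∃ (G : Type) (_ : Group G) (_ : Finite G),
      ∀ (V : Type) (_ : Finite V) (X : SimpleGraph V),
        Nonempty ((X ≃g X) ≃* G) →
          C < Set.ncard {S : Set (Sym2 V) | ∃ e ∈ X.edgeSet,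
                S = {e' : Sym2 V | ∃ φ : X ≃g X, Sym2.map (fun v => φ v) e = e'}} := by
  classical
  obtain ⟨G, hG1, hG2, hG⟩ := exists_good (C * 2)
  refine ⟨G, hG1, hG2, ?_⟩
  rintro V _ X ⟨e⟩
  by_contra hcon
  push Not at hcon
  obtain ⟨O, hO⟩ : ∃ O : Set (Set (Sym2 V)), O = {S : Set (Sym2 V) | ∃ e ∈ X.edgeSet,
                S = {e' : Sym2 V | ∃ φ : X ≃g X, Sym2.map (fun v => φ v) e = e'}} := ⟨_, rfl⟩
  rw [← hO] at hcon
  have hfin : O.Finite := Set.toFinite _
  have : Fintype O := hfin.fintype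
  have hrep : ∀ S : O, ∃ a b : V, X.Adj a b ∧
      (S : Set (Sym2 V)) = {e' : Sym2 V | ∃ φ : X ≃g X, Sym2.map (fun v => φ v) s(a, b) = e'} := by
    rintro ⟨S, hS⟩
    rw [hO] at hS
    obtain ⟨e, he, hS⟩ := hS
    induction e using Sym2.ind with
    | _ a b => exact ⟨a, b, he, hS⟩
  choose a b hab hS using hrep
  refine core (hG.transfer e.symm) (O × Bool) ?_ (fun i => if i.2 then a i.1 else b i.1)
    (fun i => if i.2 then b i.1 else a i.1) ?_
  · rw [Fintype.card_prod, Fintype.card_bool]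
    apply Nat.mul_le_mul_right
    rwa [← Nat.card_eq_fintype_card, Nat.card_coe_set_eq]
  · intro u v huv
    have h1 : {e' : Sym2 V | ∃ φ : X ≃g X, Sym2.map (fun v => φ v) s(u, v) = e'} ∈ O := by
      rw [hO]
      exact ⟨s(u, v), huv, rfl⟩
    have h2 : s(u, v) ∈
        {e' : Sym2 V | ∃ φ : X ≃g X, Sym2.map (fun v => φ v) s(u, v) = e'} :=
      ⟨1, by
        have : (fun v => (1 : X ≃g X) v) = id := rfl
        rw [this, Sym2.map_id]; rfl⟩
    have h3 := hS ⟨_, h1⟩
    simp only at h3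
    rw [h3] at h2
    obtain ⟨φ, hφ⟩ := h2
    rw [Sym2.map_mk, Sym2.eq_iff] at hφ
    rcases hφ with ⟨h4, h5⟩ | ⟨h4, h5⟩
    · exact ⟨(⟨_, h1⟩, true), φ, h4, h5⟩
    · exact ⟨(⟨_, h1⟩, false), φ, h5, h4⟩

end Pool.Agent.H260R2.EdgeOrbit
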